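import Mathlib
import Pool.Agent.H789R5.RF.Rank
import Pool.Agent.H789R5.RF.TD

/-!
# The Dress conjecture for graphs of treewidth at most four

For every `R_3`-closed graph of treewidth at most four, and more generally in the class `Elim 3`,
the rank in the generic 3-dimensional rigidity matroid is the value `cval` of Dress' formula.
-/

set_option autoImplicit false
open Classical

namespace Pool.Agent.Results.MP_d237f6_co.TreewidthFour

open Pool.Agent.H283R2.DR Pool.Agent.H789R5

/-- The inclusion-maximal cliques of `G` with at least five vertices. -/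
noncomputable def maxCliques {V : Type} [Fintype V] (G : SimpleGraph V) : Finset (Finset V) :=
  Finset.univ.filter (fun X : Finset V => 5 ≤ X.card ∧ G.IsClique (X : Set V) ∧
    ∀ Y : Finset V, G.IsClique (Y : Set V) → X ⊆ Y → Y = X)

/-- The number of members of `maxCliques G` which contain both ends of `e`. -/
noncomputable def deg {V : Type} [Fintype V] (G : SimpleGraph V) (e : Sym2 V) : ℕ :=
  ((maxCliques G).filter (fun X => ∀ w, w ∈ e → w ∈ X)).card

/-- The value of Dress' formula. -/
noncomputable def cval {V : Type} [Fintype V] (G : SimpleGraph V) : ℤ :=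
  (∑ X ∈ maxCliques G, (3 * (X.card : ℤ) - 6)) +
    ((G.edgeFinset.filter (fun e => deg G e = 0)).card : ℤ) -
    ∑ e ∈ G.edgeFinset, (if 2 ≤ deg G e then (deg G e : ℤ) - 1 else 0)

/-- `G` is closed in the generic 3-dimensional rigidity matroid. -/
def Closed {V : Type} [Fintype V] (G : SimpleGraph V) : Prop :=
  ∀ u v : V, u ≠ v → ¬ G.Adj u v → genRank 3 (G ⊔ SimpleGraph.edge u v) = genRank 3 G + 1

section

variable {V : Type} [Fintype V] {G H : SimpleGraph V} {π : V → ℕ}

theorem first_eq (hGH : G ≤ H) (hπ : Function.Injective π)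
    (hH : ∀ v, (later H π v).ncard ≤ 3 ∨
      ((later H π v).ncard = 3 + 1 ∧ H.IsClique (later H π v)))
    {X : Finset V} (hX : G.IsClique (X : Set V)) {v : V} (hv : v ∈ X)
    (hmin : ∀ w ∈ X, π v ≤ π w) :
    ((X.erase v : Finset V) : Set V) ⊆ later H π v ∧ (X.erase v).card ≤ 4 := by
  have h1 : ((X.erase v : Finset V) : Set V) ⊆ later H π v := by
    intro w hw
    have hw' := Finset.mem_coe.1 hw
    have hwX := Finset.mem_of_mem_erase hw'
    have hne := Finset.ne_of_mem_erase hw'
    exact ⟨hGH (hX hv hwX hne.symm), lt_of_le_of_ne (hmin w hwX) fun h => hne (hπ h).symm⟩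
  refine ⟨h1, ?_⟩
  have h2 := Set.ncard_le_ncard h1 (Set.toFinite _)
  rw [Set.ncard_coe_finset] at h2
  rcases hH v with h | h
  · omega
  · omega

theorem card_le_five (hGH : G ≤ H) (hπ : Function.Injective π)
    (hH : ∀ v, (later H π v).ncard ≤ 3 ∨
      ((later H π v).ncard = 3 + 1 ∧ H.IsClique (later H π v)))
    {X : Finset V} (hX : G.IsClique (X : Set V)) : X.card ≤ 5 := by
  rcases X.eq_empty_or_nonempty with rfl | hne
  · simp
  · obtain ⟨v, hv, hmin⟩ := X.exists_min_image π hne
    have := (first_eq hGH hπ hH hX hv hmin).2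
    rw [Finset.card_erase_of_mem hv] at this
    omega

/-- five-cliques with the same first vertex are equal -/
theorem five_unique (hGH : G ≤ H) (hπ : Function.Injective π)
    (hH : ∀ v, (later H π v).ncard ≤ 3 ∨
      ((later H π v).ncard = 3 + 1 ∧ H.IsClique (later H π v)))
    {X Y : Finset V} (hX : G.IsClique (X : Set V)) (hY : G.IsClique (Y : Set V))
    (hXc : X.card = 5) (hYc : Y.card = 5) {v : V} (hvX : v ∈ X) (hvY : v ∈ Y)
    (hmX : ∀ w ∈ X, π v ≤ π w) (hmY : ∀ w ∈ Y, π v ≤ π w) : X = Y := by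
  have key : ∀ Z : Finset V, G.IsClique (Z : Set V) → Z.card = 5 → v ∈ Z →
      (∀ w ∈ Z, π v ≤ π w) → ((Z.erase v : Finset V) : Set V) = later H π v := by
    intro Z hZ hZc hvZ hmZ
    have h1 := first_eq hGH hπ hH hZ hvZ hmZ
    apply Set.eq_of_subset_of_ncard_le h1.1 _ (Set.toFinite _)
    rw [Set.ncard_coe_finset, Finset.card_erase_of_mem hvZ, hZc]
    rcases hH v with h | h
    · omega
    · omega
  have h2 : X.erase v = Y.erase v :=
    Finset.coe_injective ((key X hX hXc hvX hmX).trans (key Y hY hYc hvY hmY).symm)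
  rw [← Finset.insert_erase hvX, ← Finset.insert_erase hvY, h2]

theorem exists_proper (hGH : G ≤ H) (hπ : Function.Injective π)
    (hH : ∀ v, (later H π v).ncard ≤ 3 ∨
      ((later H π v).ncard = 3 + 1 ∧ H.IsClique (later H π v))) :
    ∀ (n : ℕ) (S : Finset (Finset V)), S.card = n →
      (∀ X ∈ S, X.card = 5 ∧ G.IsClique (X : Set V)) →
      ∃ L : List (Finset V), Proper (3 + 2) L ∧ (∀ X, X ∈ L → X ∈ S) ∧ L.length = n := by
  intro n
  induction n with
  | zero =>
    intro S _ _
    exact ⟨[], trivial, by simp, rfl⟩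
  | succ n ih =>
    intro S hS hSX
    have hne : (S.biUnion id).Nonempty := by
      have : S.Nonempty := by
        rw [← Finset.card_pos]
        omega
      obtain ⟨X, hX⟩ := this
      have hXne : X.Nonempty := by
        rw [← Finset.card_pos, (hSX X hX).1]
        omega
      obtain ⟨x, hx⟩ := hXne
      exact ⟨x, Finset.mem_biUnion.2 ⟨X, hX, hx⟩⟩
    obtain ⟨v, hv, hmin⟩ := (S.biUnion id).exists_min_image π hne
    obtain ⟨X, hX, hvX⟩ := Finset.mem_biUnion.1 hv
    have hvX' : v ∈ X := hvX
    have hminS : ∀ Y ∈ S, ∀ w ∈ Y, π v ≤ π w := fun Y hY w hw =>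
      hmin w (Finset.mem_biUnion.2 ⟨Y, hY, hw⟩)
    obtain ⟨L, hL, hLS, hLn⟩ := ih (S.erase X) (by rw [Finset.card_erase_of_mem hX, hS]; rfl)
      (fun Y hY => hSX Y (Finset.mem_of_mem_erase hY))
    have h2 : 1 < X.card := by
      rw [(hSX X hX).1]
      omega
    obtain ⟨z, hz, hzv⟩ := Finset.exists_mem_ne h2 v
    refine ⟨X :: L, ⟨hL, (hSX X hX).1, v, hvX', z, hz, hzv.symm, ?_⟩, ?_, ?_⟩
    · rintro B hB ⟨hvB, -⟩
      have hBS := hLS B hB
      have hBS' := Finset.mem_of_mem_erase hBS
      exact Finset.ne_of_mem_erase hBS (five_unique hGH hπ hH (hSX B hBS').2 (hSX X hX).2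
        (hSX B hBS').1 (hSX X hX).1 hvB hvX' (hminS B hBS') (hminS X hX))
    · intro Y hY
      rcases List.mem_cons.1 hY with rfl | h
      · exact hX
      · exact Finset.mem_of_mem_erase (hLS Y h)
    · rw [List.length_cons, hLn]

theorem proper_nodup {m : ℕ} : ∀ L : List (Finset V), Proper m L → L.Nodup := by
  intro L
  induction L with
  | nil => intro _; exact List.nodup_nil
  | cons A L ih =>
    rintro ⟨hL, -, x, hx, y, hy, -, hnew⟩
    exact List.nodup_cons.2 ⟨fun hA => hnew A hA ⟨hx, hy⟩, ih hL⟩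

theorem proper_card {m : ℕ} : ∀ L : List (Finset V), Proper m L → ∀ A ∈ L, A.card = m := by
  intro L
  induction L with
  | nil => simp
  | cons B L ih =>
    rintro ⟨hL, hB, -⟩ A hA
    rcases List.mem_cons.1 hA with rfl | h
    · exact hB
    · exact ih hL A h

/-- the number of edges inside a five-clique -/
theorem ten_edges {X : Finset V} (hX : G.IsClique (X : Set V)) (hXc : X.card = 5) :
    (G.edgeFinset.filter (fun e => ∀ w, w ∈ e → w ∈ X)).card = 10 := by
  have h1 : G.edgeFinset.filter (fun e => ∀ w, w ∈ e → w ∈ X) =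
      X.offDiag.image (fun q : V × V => s(q.1, q.2)) := by
    ext e
    induction e using Sym2.ind with
    | _ a b =>
      rw [Finset.mem_filter, SimpleGraph.mem_edgeFinset, SimpleGraph.mem_edgeSet,
        Finset.mem_image]
      constructor
      · rintro ⟨h, hw⟩
        exact ⟨(a, b), Finset.mem_offDiag.2 ⟨hw a (by simp), hw b (by simp), h.ne⟩, rfl⟩
      · rintro ⟨⟨x, y⟩, hxy, he⟩
        rw [Finset.mem_offDiag] at hxy
        obtain ⟨hx, hy, hne⟩ := hxy
        simp only at hx hy hne he
        rw [← he, ← SimpleGraph.mem_edgeSet, ← he]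
        refine ⟨hX hx hy hne, ?_⟩
        intro w hw
        rw [Sym2.mem_iff] at hw
        rcases hw with rfl | rfl
        · exact hx
        · exact hy
  rw [h1]
  have := Sym2.card_image_offDiag X
  rw [hXc] at this
  exact this

theorem cval_eq (h5 : ∀ X : Finset V, G.IsClique (X : Set V) → X.card ≤ 5) :
    cval G = (G.edgeFinset.card : ℤ) - (maxCliques G).card := by
  have hmem : ∀ X ∈ maxCliques G, X.card = 5 ∧ G.IsClique (X : Set V) := by
    intro X hX
    unfold maxCliques at hX
    rw [Finset.mem_filter] at hX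
    exact ⟨le_antisymm (h5 X hX.2.2.1) hX.2.1, hX.2.2.1⟩
  have s1 : ∑ X ∈ maxCliques G, (3 * (X.card : ℤ) - 6) = 9 * (maxCliques G).card := by
    rw [Finset.sum_congr rfl (fun X hX => by rw [(hmem X hX).1] :
      ∀ X ∈ maxCliques G, (3 * (X.card : ℤ) - 6) = 3 * ((5 : ℕ) : ℤ) - 6)]
    rw [Finset.sum_const, nsmul_eq_mul]
    push_cast
    ring
  have s2 : ((G.edgeFinset.filter (fun e => deg G e = 0)).card : ℤ) -
      ∑ e ∈ G.edgeFinset, (if 2 ≤ deg G e then (deg G e : ℤ) - 1 else 0) =
      G.edgeFinset.card - ∑ e ∈ G.edgeFinset, (deg G e : ℤ) := by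
    rw [Finset.card_filter, Finset.card_eq_sum_ones]
    push_cast
    rw [← Finset.sum_sub_distrib, ← Finset.sum_sub_distrib]
    refine Finset.sum_congr rfl fun e _ => ?_
    rcases Nat.lt_or_ge (deg G e) 2 with h | h
    · have : deg G e = 0 ∨ deg G e = 1 := by omega
      rcases this with h | h <;> simp [h]
    · rw [if_neg (by omega), if_pos h]
      ring
  have s3 : ∑ e ∈ G.edgeFinset, (deg G e : ℤ) = 10 * (maxCliques G).card := by
    have h1 : ∑ e ∈ G.edgeFinset, deg G e = ∑ X ∈ maxCliques G,
        (G.edgeFinset.filter (fun e => ∀ w, w ∈ e → w ∈ X)).card := by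
      unfold deg
      simp only [Finset.card_filter]
      exact Finset.sum_comm
    rw [Finset.sum_congr rfl (fun X hX => ten_edges (hmem X hX).2 (hmem X hX).1),
      Finset.sum_const, smul_eq_mul] at h1
    rw [← Nat.cast_sum, h1]
    push_cast
    ring
  unfold cval
  rw [s1, add_sub_assoc, s2, s3]
  ring

end

theorem result (V : Type) [Fintype V] (G : SimpleGraph V) :
    (TreewidthLE 4 G → Elim 3 G) ∧ (Elim 3 G → Closed G → (genRank 3 G : ℤ) = cval G) := by
  refine ⟨elim_of_treewidth, fun hE hcl => ?_⟩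
  obtain ⟨p, hp⟩ := exists_mg V 3
  obtain ⟨L', hL', hLeq⟩ := lower hp hE
  obtain ⟨H, π, hGH, hπ, hH⟩ := hE
  have h5 : ∀ X : Finset V, G.IsClique (X : Set V) → X.card ≤ 5 := fun X hX =>
    card_le_five hGH hπ hH hX
  rw [cval_eq h5]
  have hmem : ∀ X ∈ maxCliques G, X.card = 5 ∧ G.IsClique (X : Set V) := by
    intro X hX
    unfold maxCliques at hX
    rw [Finset.mem_filter] at hX
    exact ⟨le_antisymm (h5 X hX.2.2.1) hX.2.1, hX.2.2.1⟩
  obtain ⟨L, hL, hLS, hLn⟩ := exists_proper hGH hπ hH (maxCliques G).card (maxCliques G) rfl hmem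
  have r := genRank_add hp G
  have hE' : G.edgeFinset.card = G.edgeSet.ncard := by
    rw [← SimpleGraph.coe_edgeFinset, Set.ncard_coe_finset]
  -- the upper bound
  have hcov : cover G L = G := by
    ext a b
    constructor
    · rintro ⟨hne, h | ⟨A, hA, ha, hb⟩⟩
      · exact h
      · exact (hmem A (hLS A hA)).2 ha hb hne
    · exact fun h => ⟨h.ne, Or.inl h⟩
  have hup := upper hp G hL
  rw [hcov] at hup
  -- the lower bound
  have hcc : cover (cover G L') L' = cover G L' := by
    ext a b
    constructor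
    · rintro ⟨hne, h | h⟩
      · exact h
      · exact ⟨hne, Or.inr h⟩
    · rintro h
      exact ⟨h.1, Or.inl h⟩
  have hupC := upper hp (cover G L') hL'
  rw [hcc] at hupC
  have hGC : G ≤ cover G L' := fun a b h => ⟨h.ne, Or.inl h⟩
  have hmot : mo G p ≤ mo (cover G L') p := by omega
  have hcov' : cover G L' = G := by
    ext a b
    constructor
    · intro hab
      by_contra hno
      have h1 := hcl a b hab.1 hno
      have h2 := genRank_add hp (G ⊔ SimpleGraph.edge a b)
      have h3 : mo (cover G L') p ≤ mo (G ⊔ SimpleGraph.edge a b) p := by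
        apply mo_anti
        intro x y hxy
        rw [SimpleGraph.sup_adj, SimpleGraph.edge_adj] at hxy
        rcases hxy with h | ⟨⟨rfl, rfl⟩ | ⟨rfl, rfl⟩, -⟩
        · exact hGC h
        · exact hab
        · exact hab.symm
      omega
    · exact fun h => hGC h
  rw [hcov'] at hLeq
  have hsub : L'.toFinset ⊆ maxCliques G := by
    intro A hA
    rw [List.mem_toFinset] at hA
    have hAc := proper_card L' hL' A hA
    have hAcl : G.IsClique (A : Set V) := by
      intro x hx y hy hxy
      rw [← hcov']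
      exact ⟨hxy, Or.inr ⟨A, hA, hx, hy⟩⟩
    unfold maxCliques
    rw [Finset.mem_filter]
    refine ⟨Finset.mem_univ _, by omega, hAcl, fun Y hY hAY => ?_⟩
    exact (Finset.eq_of_subset_of_card_le hAY (by rw [hAc]; exact h5 Y hY)).symm
  have hlen : L'.length ≤ (maxCliques G).card := by
    rw [← List.toFinset_card_of_nodup (proper_nodup L' hL')]
    exact Finset.card_le_card hsub
  omega

end Pool.Agent.Results.MP_d237f6_co.TreewidthFour
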